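import Pool.Agent.H71.AL.Targets

/-!
# Row TRF of alv_modules: the notions for the dense set and for the line agree
-/

set_option autoImplicit false

open Set
open Pool.Agent.AL

namespace Pool.Agent.H49.ALV

section

variable {ι : Type} {G : ι → ℝ → ℝ}

theorem gp_surj (h : Gp rl G) (i : ι) : Function.Surjective (G i) := by
  obtain ⟨j, _, hj⟩ := h.inv i
  exact fun x => ⟨G j x, hj x⟩

theorem inc_strictMono {f : ℝ → ℝ} (h : Inc rl f) : StrictMono f := fun x y hxy => h x y hxy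

theorem gp_cont (h : Gp rl G) (i : ι) : Continuous (G i) := by
  rcases h.mono i with h1 | h1
  · exact (inc_strictMono h1).monotone.continuous_of_surjective (gp_surj h i)
  · have h2 : StrictMono fun x => - G i x := fun x y hxy => neg_lt_neg (h1 x y hxy)
    have h3 : Function.Surjective fun x => - G i x := by
      intro y
      obtain ⟨x, hx⟩ := gp_surj h i (-y)
      exact ⟨x, by change - G i x = y; rw [hx, neg_neg]⟩
    have h4 := (h2.monotone.continuous_of_surjective h3).neg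
    have h5 : (- fun x => - G i x) = G i := funext fun x => neg_neg _
    rwa [h5] at h4

theorem gd_sub {p q p' q' : ℝ} (h : Gd rl G p q) (h1 : p ≤ p') (h2 : q' ≤ q) (h3 : p' < q') :
    Gd rl G p' q' := by
  refine ⟨h3, fun i => ?_⟩
  rcases h.2 i with h4 | h4
  · left
    intro x hx1 hx2 hx3
    exact h4 x (lt_of_le_of_lt h1 hx1) (lt_of_lt_of_le hx2 h2)
      ⟨lt_of_le_of_lt h1 hx3.1, lt_of_lt_of_le hx3.2 h2⟩
  · right
    intro x hx1 hx2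
    exact h4 x (lt_of_le_of_lt h1 hx1) (lt_of_lt_of_le hx2 h2)

variable {lt : ℕ → ℕ → Prop} {g : ι → ℕ → ℕ} {e : ℕ → ℝ}

theorem em_dense (h : Em lt e) : Dense (range e) :=
  dense_of_exists_between fun _ _ hab => h.den _ _ hab

theorem btw (h : Em lt e) {p q : ℝ} (hpq : p < q) : ∃ m, p < e m ∧ e m < q := by
  obtain ⟨_, ⟨m, rfl⟩, h1, h2⟩ := h.den p q hpq
  exact ⟨m, h1, h2⟩

theorem gd_iff (h : Tr G lt g e) (p q : ℕ) : Gd lt g p q ↔ Gd rl G (e p) (e q) := by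
  constructor
  · rintro ⟨h1, h2⟩
    refine ⟨(h.em.ord p q).mp h1, fun i => ?_⟩
    have hc := gp_cont h.gp i
    rcases h2 i with h3 | h3
    · left
      rintro x hx1 hx2 ⟨hx3, hx4⟩
      have ho : IsOpen (Ioo (e p) (e q) ∩ G i ⁻¹' (Ioo (e p) (e q))) :=
        isOpen_Ioo.inter (isOpen_Ioo.preimage hc)
      obtain ⟨_, ⟨m, rfl⟩, hm1, hm2⟩ := (em_dense h.em).exists_mem_open ho
        ⟨x, ⟨hx1, hx2⟩, hx3, hx4⟩
      rw [mem_preimage, ← h.eq] at hm2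
      exact h3 m ((h.em.ord _ _).mpr hm1.1) ((h.em.ord _ _).mpr hm1.2)
        ⟨(h.em.ord _ _).mpr hm2.1, (h.em.ord _ _).mpr hm2.2⟩
    · right
      intro x hx1 hx2
      by_contra hx
      have ho : IsOpen (Ioo (e p) (e q) ∩ {x | G i x ≠ x}) :=
        isOpen_Ioo.inter (isOpen_ne_fun hc continuous_id)
      obtain ⟨_, ⟨m, rfl⟩, hm1, hm2⟩ := (em_dense h.em).exists_mem_open ho ⟨x, ⟨hx1, hx2⟩, hx⟩
      apply hm2
      rw [← h.eq, h3 m ((h.em.ord _ _).mpr hm1.1) ((h.em.ord _ _).mpr hm1.2)]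
  · rintro ⟨h1, h2⟩
    refine ⟨(h.em.ord p q).mpr h1, fun i => ?_⟩
    rcases h2 i with h3 | h3
    · left
      rintro x hx1 hx2 ⟨hx3, hx4⟩
      have h4 := (h.em.ord _ _).mp hx3
      have h5 := (h.em.ord _ _).mp hx4
      rw [h.eq] at h4 h5
      exact h3 (e x) ((h.em.ord _ _).mp hx1) ((h.em.ord _ _).mp hx2) ⟨h4, h5⟩
    · right
      intro x hx1 hx2
      apply h.em.inj
      rw [h.eq]
      exact h3 (e x) ((h.em.ord _ _).mp hx1) ((h.em.ord _ _).mp hx2)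

theorem sr_iff (h : Tr G lt g e) (m n : ℕ) : Sr lt g m n ↔ Sr rl G (e m) (e n) := by
  constructor
  · rintro ⟨p, q, h1, ⟨h2, h3⟩, h4, h5⟩
    exact ⟨e p, e q, (gd_iff h p q).mp h1, ⟨(h.em.ord _ _).mp h2, (h.em.ord _ _).mp h3⟩,
      (h.em.ord _ _).mp h4, (h.em.ord _ _).mp h5⟩
  · rintro ⟨p, q, h1, ⟨h2, h3⟩, h4, h5⟩
    obtain ⟨p', hp1, hp2⟩ := btw h.em (lt_min h2 h4)
    obtain ⟨q', hq1, hq2⟩ := btw h.em (max_lt h3 h5)
    have hp3 := lt_min_iff.mp hp2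
    have hq3 := max_lt_iff.mp hq1
    exact ⟨p', q', (gd_iff h p' q').mpr (gd_sub h1 hp1.le hq2.le (hp3.1.trans hq3.1)),
      ⟨(h.em.ord _ _).mpr hp3.1, (h.em.ord _ _).mpr hq3.1⟩, (h.em.ord _ _).mpr hp3.2,
      (h.em.ord _ _).mpr hq3.2⟩

theorem ws_iff_sr {L : Type} {ι : Type} (lt : L → L → Prop) (g : ι → L → L) (x : L) :
    Ws lt g x ↔ Sr lt g x x :=
  ⟨fun ⟨p, q, h1, h2, h3⟩ => ⟨p, q, h1, ⟨h2, h3⟩, h2, h3⟩,
    fun ⟨p, q, h1, ⟨h2, h3⟩, _⟩ => ⟨p, q, h1, h2, h3⟩⟩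

theorem ws_iff (h : Tr G lt g e) (m : ℕ) : Ws lt g m ↔ Ws rl G (e m) := by
  rw [ws_iff_sr, ws_iff_sr, sr_iff h]

theorem two_pts (h : Em lt e) : ∃ m n, e m < e n := by
  obtain ⟨m, _, hm⟩ := btw h (zero_lt_one' ℝ)
  obtain ⟨n, hn, _⟩ := btw h (lt_add_one (e m))
  exact ⟨m, n, hn⟩

theorem inc_iff (h : Tr G lt g e) (i : ι) : Inc lt (g i) ↔ Inc rl (G i) := by
  constructor
  · intro h1
    rcases h.gp.mono i with h2 | h2
    · exact h2
    · exfalso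
      obtain ⟨m, n, hmn⟩ := two_pts h.em
      have h3 := (h.em.ord _ _).mp (h1 m n ((h.em.ord _ _).mpr hmn))
      rw [h.eq, h.eq] at h3
      exact lt_asymm h3 (h2 _ _ hmn)
  · intro h1 m n hmn
    rw [h.em.ord, h.eq, h.eq]
    exact h1 _ _ ((h.em.ord _ _).mp hmn)

theorem dec_iff (h : Tr G lt g e) (i : ι) : Dec lt (g i) ↔ Dec rl (G i) := by
  constructor
  · intro h1
    rcases h.gp.mono i with h2 | h2
    · exfalso
      obtain ⟨m, n, hmn⟩ := two_pts h.em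
      have h3 := (h.em.ord _ _).mp (h1 m n ((h.em.ord _ _).mpr hmn))
      rw [h.eq, h.eq] at h3
      exact lt_asymm h3 (h2 _ _ hmn)
    · exact h2
  · intro h1 m n hmn
    rw [h.em.ord, h.eq, h.eq]
    exact h1 _ _ ((h.em.ord _ _).mp hmn)

theorem iter_eq (h : Tr G lt g e) (i : ι) (m : ℕ) (k : ℕ) :
    e ((g i)^[k] m) = (G i)^[k] (e m) := by
  induction k with
  | zero => rfl
  | succ k ih => rw [Function.iterate_succ_apply', Function.iterate_succ_apply', h.eq, ih]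

theorem lm_iff (h : Tr G lt g e) (i : ι) (m n : ℕ) :
    Lm lt (g i) m n ↔ Lm rl (G i) (e m) (e n) := by
  have ho := h.em.ord
  constructor
  · rintro (⟨h1, h2, h3⟩ | ⟨h1, h2, h3⟩)
    · refine Or.inl ⟨(ho _ _).mp h1, fun k => ?_, fun z hz => ?_⟩
      · have := (ho _ _).mp (h2 k)
        rwa [iter_eq h] at this
      · obtain ⟨z', hz1, hz2⟩ := btw h.em hz
        obtain ⟨k, hk⟩ := h3 z' ((ho _ _).mpr hz2)
        have := (ho _ _).mp hk
        rw [iter_eq h] at this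
        exact ⟨k, hz1.trans this⟩
    · refine Or.inr ⟨(ho _ _).mp h1, fun k => ?_, fun z hz => ?_⟩
      · have := (ho _ _).mp (h2 k)
        rwa [iter_eq h] at this
      · obtain ⟨z', hz1, hz2⟩ := btw h.em hz
        obtain ⟨k, hk⟩ := h3 z' ((ho _ _).mpr hz1)
        have := (ho _ _).mp hk
        rw [iter_eq h] at this
        exact ⟨k, lt_trans this hz2⟩
  · rintro (⟨h1, h2, h3⟩ | ⟨h1, h2, h3⟩)
    · refine Or.inl ⟨(ho _ _).mpr h1, fun k => ?_, fun z hz => ?_⟩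
      · rw [ho, iter_eq h]
        exact h2 k
      · obtain ⟨k, hk⟩ := h3 (e z) ((ho _ _).mp hz)
        refine ⟨k, ?_⟩
        rw [ho, iter_eq h]
        exact hk
    · refine Or.inr ⟨(ho _ _).mpr h1, fun k => ?_, fun z hz => ?_⟩
      · rw [ho, iter_eq h]
        exact h2 k
      · obtain ⟨k, hk⟩ := h3 (e z) ((ho _ _).mp hz)
        refine ⟨k, ?_⟩
        rw [ho, iter_eq h]
        exact hk

theorem e1_iff (h : Tr G lt g e) (m : ℕ) : E1 lt g m ↔ E1 rl G (e m) := by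
  constructor
  · rintro (⟨i, y, h1, h2⟩ | ⟨i, h1, h2⟩)
    · exact Or.inl ⟨i, e y, (inc_iff h i).mp h1, (lm_iff h i y m).mp h2⟩
    · refine Or.inr ⟨i, (dec_iff h i).mp h1, ?_⟩
      rw [← h.eq, h2]
  · rintro (⟨i, y, h1, h2⟩ | ⟨i, h1, h2⟩)
    · left
      have hmono := inc_strictMono h1
      rcases h2 with ⟨h3, h4, h5⟩ | ⟨h3, h4, h5⟩
      · obtain ⟨d, hd1, hd2⟩ := btw h.em h3
        refine ⟨i, d, (inc_iff h i).mpr h1, (lm_iff h i d m).mpr (Or.inl ⟨hd2, fun n => ?_,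
          fun z hz => ?_⟩)⟩
        · obtain ⟨k, hk⟩ := h5 _ hd2
          have h6 := hmono.iterate n hk
          rw [← Function.iterate_add_apply] at h6
          exact h6.trans (h4 _)
        · obtain ⟨k, hk⟩ := h5 z hz
          exact ⟨k, lt_trans hk (hmono.iterate k hd1)⟩
      · obtain ⟨d, hd1, hd2⟩ := btw h.em h3
        refine ⟨i, d, (inc_iff h i).mpr h1, (lm_iff h i d m).mpr (Or.inr ⟨hd1, fun n => ?_,
          fun z hz => ?_⟩)⟩
        · obtain ⟨k, hk⟩ := h5 _ hd1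
          have h6 := hmono.iterate n hk
          rw [← Function.iterate_add_apply] at h6
          exact lt_trans (h4 _) h6
        · obtain ⟨k, hk⟩ := h5 z hz
          exact ⟨k, lt_trans (hmono.iterate k hd2) hk⟩
    · refine Or.inr ⟨i, (dec_iff h i).mpr h1, ?_⟩
      apply h.em.inj
      rw [h.eq, h2]

theorem e2_iff (h : Tr G lt g e) (m : ℕ) : E2 lt g m ↔ E2 rl G (e m) := by
  have ho := h.em.ord
  unfold E2
  rw [ws_iff h]
  refine and_congr_right fun _ => ?_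
  constructor
  · rintro ⟨k, (⟨h1, h2⟩ | ⟨h1, h2⟩)⟩
    · refine ⟨e k, Or.inl ⟨(ho _ _).mp h1, fun z hz1 hz2 => ?_⟩⟩
      obtain ⟨z', hz3, hz4⟩ := btw h.em hz2
      have h3 := (sr_iff h _ _).mp (h2 z' ((ho _ _).mpr (lt_trans hz1 hz3)) ((ho _ _).mpr hz4))
      obtain ⟨p, q, h4, ⟨h5, h6⟩, h7, h8⟩ := h3
      exact ⟨p, q, h4, ⟨h5, h6⟩, lt_trans h5 hz1, lt_trans hz3 h8⟩
    · refine ⟨e k, Or.inr ⟨(ho _ _).mp h1, fun z hz1 hz2 => ?_⟩⟩
      obtain ⟨z', hz3, hz4⟩ := btw h.em hz1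
      have h3 := (sr_iff h _ _).mp (h2 z' ((ho _ _).mpr hz3) ((ho _ _).mpr (lt_trans hz4 hz2)))
      obtain ⟨p, q, h4, ⟨h5, h6⟩, h7, h8⟩ := h3
      exact ⟨p, q, h4, ⟨h5, h6⟩, lt_trans h7 hz4, lt_trans hz2 h6⟩
  · rintro ⟨y, (⟨h1, h2⟩ | ⟨h1, h2⟩)⟩
    · obtain ⟨d, hd1, hd2⟩ := btw h.em h1
      refine ⟨d, Or.inl ⟨(ho _ _).mpr hd2, fun z hz1 hz2 => ?_⟩⟩
      have hz3 := (ho _ _).mp hz1
      obtain ⟨p, q, h4, ⟨h5, h6⟩, h7, h8⟩ := h2 (e z) (lt_trans hd1 hz3) ((ho _ _).mp hz2)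
      exact (sr_iff h _ _).mpr ⟨p, q, h4, ⟨lt_trans h5 hd1, lt_trans hz3 h8⟩, h7, h8⟩
    · obtain ⟨d, hd1, hd2⟩ := btw h.em h1
      refine ⟨d, Or.inr ⟨(ho _ _).mpr hd1, fun z hz1 hz2 => ?_⟩⟩
      have hz3 := (ho _ _).mp hz2
      obtain ⟨p, q, h4, ⟨h5, h6⟩, h7, h8⟩ := h2 (e z) ((ho _ _).mp hz1) (lt_trans hz3 hd2)
      exact (sr_iff h _ _).mpr ⟨p, q, h4, ⟨lt_trans h7 hz3, lt_trans hd2 h6⟩, h7, h8⟩

end

theorem pf_TRF : T_TRF := by
  intro ι G lt g e h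
  refine ⟨ws_iff h, sr_iff h, inc_iff h, dec_iff h, lm_iff h, fun m => ?_⟩
  unfold Es
  rw [e1_iff h, e2_iff h]

end Pool.Agent.H49.ALV
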